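import Pool.Agent.Helper45.PQ.StA

/-!
# Project PQ, module EXT: helper53's weights give a `Cfg` (after Helper99/HE/M_EXT)
-/

set_option autoImplicit false

open Module Classical
open scoped LinearAlgebra.Projectivization

namespace Pool.Agent.Helper70.PQ

open Pool.Agent.Helper45.PQ
open Pool.Agent.Helper53.PB

universe u v

section main

variable {F : Type u} {V : Type v} [Field F] [AddCommGroup V] [Module F V]

/-- the masses on a subspace: the zero terms dropped -/
private theorem mass_pts [Finite V] (P : Polar F V) (T : Finset (ℙ F V)) (l : Submodule F V) :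
    mass (Finset.univ.filter (fun X => 0 < eps P T X)) (eps P T) l = ∑ X ∈ pts l, eps P T X := by
  unfold mass pts
  rw [Finset.filter_filter, Finset.sum_filter, Finset.sum_filter]
  apply Finset.sum_congr rfl
  intro X _
  by_cases h1 : X.rep ∈ l
  · by_cases h2 : 0 < eps P T X
    · rw [if_pos ⟨h2, h1⟩, if_pos h1]
    · rw [if_neg (fun h => h2 h.1), if_pos h1]
      omega
  · rw [if_neg (fun h => h1 h.2), if_neg h1]

private theorem nn_eq (Q : QuadraticForm F V)
    (nd : ∀ x, Q x = 0 → (∀ y, QuadraticMap.polar Q x y = 0) → x = 0) (T : Finset (ℙ F V))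
    (R : ℙ F V) : (Form.orthogonal Q nd).toPolar.nn T R = nu Q T R.rep := by
  unfold Polar.nn nu
  congr 1
  apply Finset.filter_congr
  intro y _
  change QuadraticMap.polar Q y.rep R.rep = 0 ↔ _
  rw [QuadraticMap.polar_comm]

private theorem two_ne [Finite F] {h : ℕ} (hq : Nat.card F = 3 ^ h) : (2 : F) ≠ 0 := by
  intro h2
  have : Fintype F := Fintype.ofFinite F
  have h3 : ((3 : F)) ^ h = 0 := by
    have h4 : ((Nat.card F : ℕ) : F) = 0 := by
      rw [Nat.card_eq_fintype_card]
      exact FiniteField.cast_card_eq_zero F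
    rw [hq] at h4
    push_cast at h4
    exact h4
  have h5 : (3 : F) = 0 := by
    by_contra h6
    exact pow_ne_zero h h6 h3
  have h6 : (1 : F) = 3 - 2 := by norm_num
  rw [h5, h2, sub_zero] at h6
  exact one_ne_zero h6

end main

theorem hEXT (h1 : StQDP.{u, v}) (h2 : StLPB.{u, v}) : StEXT.{u, v} := by
  intro F _ _ V _ _ _ Q nd h j T hq hh hp S hj
  have hfV : Finite V := Module.finite_of_finite F
  have h2F : (2 : F) ≠ 0 := two_ne hq
  have hqd : Qd Q 9 4 := h1 F h2F V Q nd 9 4 hp
  have hJ : j * (Nat.card F + 1) < Fintype.card (Fin (Nat.card F)) * Nat.card F ^ 2 := by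
    rw [Fintype.card_fin]
    obtain ⟨a, ha⟩ : ∃ a, Nat.card F = j + 2 + a := ⟨Nat.card F - (j + 2), by omega⟩
    rw [ha]
    nlinarith [Nat.zero_le j, Nat.zero_le a, Nat.zero_le (j * a), Nat.zero_le (j * j),
      Nat.zero_le (a * a), Nat.zero_le (j * j * j), Nat.zero_le (j * j * a),
      Nat.zero_le (j * a * a), Nat.zero_le (a * a * a)]
  have hq3 : Fintype.card (Fin (Nat.card F)) * Nat.card F ^ 2 = Nat.card F ^ 3 := by
    rw [Fintype.card_fin, ← pow_succ']
  refine ⟨Finset.univ.filter (fun X => 0 < eps (Form.orthogonal Q nd).toPolar T X),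
    eps (Form.orthogonal Q nd).toPolar T, ?_⟩
  have hH : ∀ R ∈ Finset.univ.filter
      (fun X : ℙ F V => 0 < eps (Form.orthogonal Q nd).toPolar T X),
      0 < eps (Form.orthogonal Q nd).toPolar T R := fun R hR => (Finset.mem_filter.1 hR).2
  have hnn : ∀ R ∈ Finset.univ.filter
      (fun X : ℙ F V => 0 < eps (Form.orthogonal Q nd).toPolar T X),
      (1 + eps (Form.orthogonal Q nd).toPolar T R) * (Nat.card F ^ 3 + 1) ≤ nu Q T R.rep ∧
      nu Q T R.rep ≤ (1 + eps (Form.orthogonal Q nd).toPolar T R) * Nat.card F ^ 3 + 1 + j := by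
    intro R hR
    obtain ⟨h3, h4⟩ := eps_pos (hH R hR)
    obtain ⟨h5, h6, h7⟩ := nn_lower S h3 h4
    have h8 := eps_not h3 h4
    rw [nn_eq, hq3] at h6 h7
    have h9 : tmin (Form.orthogonal Q nd).toPolar T R =
        1 + eps (Form.orthogonal Q nd).toPolar T R := by omega
    rw [h9] at h6 h7
    exact ⟨h6, by omega⟩
  exact
    { hq := hq
      h1 := hh
      qd := hqd
      sT := fun P hP => S.block.1 P hP
      sH := fun R hR => (eps_pos (hH R hR)).1
      cT := by
        have := S.card
        rw [Fintype.card_fin, ← pow_succ'] at this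
        exact this
      hj := hj
      dis := fun R hR => (eps_pos (hH R hR)).2
      mp := fun R hR => hH R hR
      ms := by
        rw [Finset.sum_filter_of_ne]
        · exact total_weight S hJ
        · intro X _ hX
          exact Nat.pos_of_ne_zero hX
      ln := by
        intro P hP X hXP hX hPX
        have hts : (Form.orthogonal Q nd).toPolar.TS (line P X) :=
          line_ts (P := (Form.orthogonal Q nd).toPolar) (S.block.1 P hP) hX hPX
        have h3 := line_weight S hJ (Ne.symm hXP) hts hP (left_mem_line P X)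
        rw [mass_pts, ← h3, add_comm]
      gn := by
        intro G hG hr
        have hts : (Form.orthogonal Q nd).toPolar.TS G :=
          ⟨hG, fun x hx y hy => polar_zero hG hx hy⟩
        have hgen : (Form.orthogonal Q nd).toPolar.Gen G :=
          Polar.gen_of_finrank (class_gen hp) hts hr
        have h3 := gen_weight S hJ hgen
        rw [mass_pts, ← h3, add_comm]
      lo := fun R hR => (hnn R hR).1
      up := fun R hR => (hnn R hR).2
      lp := by
        intro R hR R' hR' hne hperp
        have hts : (Form.orthogonal Q nd).toPolar.TS (line R R') :=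
          line_ts (P := (Form.orthogonal Q nd).toPolar) (eps_pos (hH R hR)).1 (eps_pos (hH R' hR')).1 hperp
        have h3 := h2 F V (Form.orthogonal Q nd).toPolar T (Fin (Nat.card F)) j S R R' hne hts
        have h4 : (T.filter (fun P => QuadraticMap.polar Q R.rep P.rep = 0 ∧
            QuadraticMap.polar Q R'.rep P.rep = 0)) =
            (T.filter (fun y => (Form.orthogonal Q nd).toPolar.f y.rep R.rep = 0 ∧
              (Form.orthogonal Q nd).toPolar.f y.rep R'.rep = 0)) := by
          apply Finset.filter_congr
          intro y _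
          change _ ↔ QuadraticMap.polar Q y.rep R.rep = 0 ∧ QuadraticMap.polar Q y.rep R'.rep = 0
          rw [QuadraticMap.polar_comm _ y.rep, QuadraticMap.polar_comm _ y.rep]
        rw [h4]
        rw [Fintype.card_fin] at h3
        refine le_trans (Nat.add_le_add_right h3 1) ?_
        obtain ⟨a, ha⟩ : ∃ a, Nat.card F = j + 2 + a := ⟨Nat.card F - (j + 2), by omega⟩
        rw [ha]
        have h5 : (1 + j) * (1 + (j + 2 + a) * (j + 2 + a + 1)) + 1 ≤
            (1 + j + a) * (1 + (j + 2 + a) * (j + 2 + a + 1)) + 1 := by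
          have : (1 + j) ≤ (1 + j + a) := by omega
          have := Nat.mul_le_mul_right (1 + (j + 2 + a) * (j + 2 + a + 1)) this
          omega
        refine le_trans h5 (le_of_eq ?_)
        ring }

end Pool.Agent.Helper70.PQ
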